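import Pool.Agent.H27.Cone

set_option autoImplicit false

open Filter Topology Pool.Agent.H27.Cone

namespace Pool.Agent.Results.MP_5ab9c0_an.NotOC

universe u

theorem result : ∃ (E : Type) (_ : NormedAddCommGroup E) (_ : NormedSpace ℝ E)
    (_ : CompleteSpace E) (C : Set E), IsCone C ∧
    (∀ (J : Type u) [Preorder J] [IsDirectedOrder J] [Nonempty J] (x : J → E) (s : E),
      (∀ i j, i ≤ j → x j - x i ∈ C) → (∀ j, s - x j ∈ C) →
      (∀ v, (∀ j, v - x j ∈ C) → v - s ∈ C) → Tendsto x atTop (𝓝 s)) ∧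
    ∃ x : ℕ → E, (∀ i j, i ≤ j → x j - x i ∈ C) ∧ (∃ u, ∀ j, u - x j ∈ C) ∧
      ¬∃ l, Tendsto x atTop (𝓝 l) :=
  ⟨X, inferInstance, inferInstance, inferInstance, K, isCone, fun _ _ _ _ x s => net x s, seq,
    seq_mono, ⟨_, ub 0 le_rfl zero_le_one⟩, no_lim⟩

end Pool.Agent.Results.MP_5ab9c0_an.NotOC
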